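import Mathlib
import Pool.Agent.TauGp.Defs
import Pool.Agent.TauGp.CH.Final

/-!
# `U_fin(O, T)` and `S_fin(Ω, O^{τ-gp})` differ under the continuum hypothesis

Negated form of Q1 of MP_34961d_gt: it is consistent with ZFC that the two classes differ, because
they differ whenever the continuum hypothesis holds.
-/

set_option autoImplicit false

namespace Pool.Agent.Results.MP_34961d_gt.ContinuumHypothesisSeparates

open Pool.Agent.TauGp

/-- If `2^ℵ₀ = ℵ₁`, then there is a set of real numbers which satisfies `S_fin(Ω, O^{τ-gp})` but
does not satisfy `U_fin(O, T)`. -/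
theorem result (hCH : Cardinal.continuum.{0} = Cardinal.aleph 1) :
    ∃ X : Set ℝ, SfinOmegaTauGp X ∧ ¬ UfinTau X :=
  CH.separation hCH

end Pool.Agent.Results.MP_34961d_gt.ContinuumHypothesisSeparates
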