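import Mathlib
import Pool.Agent.TauGp.Defs
import Pool.Agent.TauGp.Decreasing

/-!
# `S_fin(Ω, O^{τ-gp})` is the property `U_fin(O, T)` for decreasing sequences of covers

Partial answer to Q1 of MP_34961d_gt: the inclusion `U_fin(O, T) ⊆ S_fin(Ω, O^{τ-gp})` in ZFC, and a
characterization of `S_fin(Ω, O^{τ-gp})` which reduces the question to a comparison of two forms of
`U_fin(O, T)`.
-/

set_option autoImplicit false

namespace Pool.Agent.Results.MP_34961d_gt.DecreasingCharacterization

open Pool.Agent.TauGp

universe u

/-- For every second countable space `X` (in particular for every set of reals): `X` satisfies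
`S_fin(Ω, O^{τ-gp})` if and only if it satisfies `U_fin(O, T)` for decreasing sequences of covers;
hence `U_fin(O, T)` implies `S_fin(Ω, O^{τ-gp})`. -/
theorem result {X : Type u} [TopologicalSpace X] [SecondCountableTopology X] :
    (SfinOmegaTauGp X ↔ UfinTauDecreasing X) ∧ (UfinTau X → SfinOmegaTauGp X) :=
  ⟨sfin_iff_ufinTauDecreasing, fun h =>
    sfin_iff_ufinTauDecreasing.2 fun 𝒰 h𝒰 _ => h 𝒰 h𝒰⟩

end Pool.Agent.Results.MP_34961d_gt.DecreasingCharacterization
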